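import Pool.Agent.AT3.Stmts3
import Pool.Agent.Helper35_K9.CHQ
import Pool.Agent.Helper35_K9.CHV
import Pool.Agent.Helper56_K9.EXP
import Pool.Agent.Helper2_K9.PUG
import Pool.Agent.Helper69_K9.Fmg
import Pool.Agent.Helper75_K9.LBR

/-!
# Squad AT3, row CHA: the alternating sum if the proper local sums vanish
-/

open scoped BigOperators

noncomputable section

namespace Pool.Agent.PP.T3.H41

open Pool.Agent.Helper51_AWC Pool.Agent.Helper79_WRA Pool.Agent.PP Pool.Agent.PP.KF
open Pool.Agent.PP.K9 Pool.Agent.PP.K9.H97 Pool.Agent.PP.H75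

attribute [local instance] Ideal.Quotient.field

/-- only the trivial chain counts if there is no nontrivial good subgroup -/
theorem yy_of_small {ℓ : ℕ} [Fact ℓ.Prime] {F : Type} [Field F] (hF : GoodF ℓ F) {A : Type}
    [Group A] [Finite A] {f : A → F} (hf : IsIdem f)
    (h : ∀ R : Subgroup A, IsPGroup ℓ R → Gd f R → Nat.card R ≤ 1) :
    YY ℓ ⊤ f = (Nat.card A : ℤ) * lnum (⊤ : Subgroup A) f := by
  have hpr : ℓ.Prime := Fact.out
  have h1 : 1 ≤ ℓ ^ 2 := Nat.one_le_pow _ _ hpr.pos
  rw [K9.H56.exp ℓ F hF A f hf (fun R hR hg => (h R hR hg).trans h1)]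
  have hlt : 1 < ℓ := hpr.one_lt
  have hlt2 : 1 < ℓ ^ 2 := Nat.one_lt_pow two_ne_zero hlt
  have e1 : ∑ᶠ (Q : Subgroup A) (_ : Nat.card Q = ℓ),
        (Nat.card (Subgroup.normalizer (Q : Set A)) : ℤ) *
          lnum (Subgroup.normalizer (Q : Set A)) f = 0 := by
    refine K9.H35.fz fun Q => K9.H35.fz fun hQ => ?_
    have hp : IsPGroup ℓ Q := IsPGroup.of_card (n := 1) (by rw [hQ, pow_one])
    rw [(K9.H75.lbr ℓ F hF A f hf Q (Subgroup.normalizer (Q : Set A)) hp
      Subgroup.le_normalizer le_rfl).2 (fun hg => by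
        have := h Q hp hg
        omega), Nat.cast_zero, mul_zero]
  have e2 : ∑ᶠ (V : Subgroup A) (_ : Nat.card V = ℓ ^ 2),
        (Nat.card (Subgroup.normalizer (V : Set A)) : ℤ) *
          lnum (Subgroup.normalizer (V : Set A)) f = 0 := by
    refine K9.H35.fz fun V => K9.H35.fz fun hV => ?_
    have hp : IsPGroup ℓ V := IsPGroup.of_card (n := 2) hV
    rw [(K9.H75.lbr ℓ F hF A f hf V (Subgroup.normalizer (V : Set A)) hp
      Subgroup.le_normalizer le_rfl).2 (fun hg => by
        have := h V hp hg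
        omega), Nat.cast_zero, mul_zero]
  have e3 : ∑ᶠ (Q : Subgroup A) (_ : Nat.card Q = ℓ), ∑ᶠ (V : Subgroup A)
        (_ : Nat.card V = ℓ ^ 2 ∧ Q ≤ V),
        (Nat.card (Subgroup.normalizer (Q : Set A) ⊓ Subgroup.normalizer (V : Set A) :
          Subgroup A) : ℤ) *
          lnum (Subgroup.normalizer (Q : Set A) ⊓ Subgroup.normalizer (V : Set A)) f = 0 := by
    refine K9.H35.fz fun Q => K9.H35.fz fun _ => K9.H35.fz fun V => K9.H35.fz fun hV => ?_
    have hp : IsPGroup ℓ V := IsPGroup.of_card (n := 2) hV.1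
    rw [(K9.H75.lbr ℓ F hF A f hf V (Subgroup.normalizer (Q : Set A) ⊓
      Subgroup.normalizer (V : Set A)) hp
      (le_inf (K9.H35.le_norm_of_sq hV.1 hV.2) Subgroup.le_normalizer) inf_le_right).2
      (fun hg => by
        have := h V hp hg
        omega), Nat.cast_zero, mul_zero]
  rw [e1, e2, e3, sub_zero, sub_zero, add_zero]

/-- the good subgroups of the quotient -/
theorem card_good1 {ℓ : ℕ} {F : Type} [Field F] (hF : GoodF ℓ F) {G A : Type} [Group G]
    [Finite G] [Group A] [Finite A] {Q : Subgroup G} (hQp : IsPGroup ℓ Q)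
    {p : Subgroup.normalizer (Q : Set G) →* A}
    (hp : Function.Surjective p) (hk : p.ker = Q.subgroupOf (Subgroup.normalizer (Q : Set G)))
    {e : G → F} (hf : IsIdem (fun t : Subgroup.normalizer (Q : Set G) => br Q e t))
    (hmx : ∀ R : Subgroup G, IsPGroup ℓ R → Gd e R → Nat.card R ≤ Nat.card Q)
    (R : Subgroup A) (hR : IsPGroup ℓ R)
    (hg : Gd (PP.H75.push p (fun t : Subgroup.normalizer (Q : Set G) => br Q e t)) R) :
    Nat.card R ≤ 1 := by
  have hkc : Nat.card p.ker = Nat.card Q := by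
    rw [hk]
    exact Nat.card_congr (Subgroup.subgroupOfEquivOfLe Subgroup.le_normalizer).toEquiv
  have hkp : IsPGroup ℓ p.ker := by
    rw [hk]
    exact hQp.of_equiv (Subgroup.subgroupOfEquivOfLe Subgroup.le_normalizer).symm
  have h1 : p.ker ≤ R.comap p := by
    intro x hx
    rw [MonoidHom.mem_ker] at hx
    rw [Subgroup.mem_comap, hx]
    exact R.one_mem
  have h2 : IsPGroup ℓ (R.comap p) := (PP.H75.isPGroup_comap_iff hp hkp R).2 hR
  have h3 := (K9.H02.pug ℓ F hF _ A p hp hkp _ hf (R.comap p) h1 h2).2 (by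
    rw [Subgroup.map_comap_eq_self_of_surjective hp]
    exact hg)
  obtain ⟨x, hx, hx2⟩ := h3
  have h4 : Gd e (K9.H35.up p R) := by
    refine ⟨(x : G), ?_, ?_⟩
    · rw [Subgroup.mem_centralizer_iff]
      rintro _ ⟨y, hy, rfl⟩
      exact congrArg Subtype.val (Subgroup.mem_centralizer_iff.1 hx y hy)
    · intro h0
      apply hx2
      by_cases hc : (x : G) ∈ Subgroup.centralizer (Q : Set G)
      · change br Q e x = 0
        rw [H66.br_of_mem hc, h0]
      · exact H66.br_of_not_mem hc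
  have h5 := hmx (K9.H35.up p R) (h2.map _) h4
  rw [K9.H35.card_up hp, hkc] at h5
  have h6 : 0 < Nat.card Q := Nat.card_pos
  exact Nat.le_of_mul_le_mul_left (h5.trans (mul_one _).ge) h6

/-- the term of a good subgroup of maximal order -/
theorem term_max {ℓ : ℕ} [Fact ℓ.Prime] {F : Type} [Field F] (hF : GoodF ℓ F) {G : Type}
    [Group G] [Finite G] {e : G → F} (he : IsIdem e) {Q : Subgroup G} (hQp : IsPGroup ℓ Q)
    (hmx : ∀ R : Subgroup G, IsPGroup ℓ R → Gd e R → Nat.card R ≤ Nat.card Q) :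
    (Nat.card Q : ℤ) * YQ ℓ e Q =
      (Nat.card (Subgroup.normalizer (Q : Set G)) : ℤ) *
        lnum (Subgroup.normalizer (Q : Set G)) e := by
  have hf : IsIdem (fun t : Subgroup.normalizer (Q : Set G) => br Q e t) :=
    (H20.brm ℓ F hF G Q (Subgroup.normalizer (Q : Set G)) hQp
      (Subgroup.centralizer_le_normalizer _) le_rfl).2.2 e he
  have hk : (QuotientGroup.mk' (Q.subgroupOf (Subgroup.normalizer (Q : Set G)))).ker =
    Q.subgroupOf (Subgroup.normalizer (Q : Set G)) := QuotientGroup.ker_mk' _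
  have hs := QuotientGroup.mk'_surjective (Q.subgroupOf (Subgroup.normalizer (Q : Set G)))
  have h1 := yy_of_small hF (PP.H75.push_isIdem hs hf)
    (card_good1 hF hQp hs hk hf hmx)
  have hkc : Nat.card (QuotientGroup.mk' (Q.subgroupOf (Subgroup.normalizer (Q : Set G)))).ker =
      Nat.card Q := by
    rw [hk]
    exact Nat.card_congr (Subgroup.subgroupOfEquivOfLe Subgroup.le_normalizer).toEquiv
  have hkp : IsPGroup ℓ
      (QuotientGroup.mk' (Q.subgroupOf (Subgroup.normalizer (Q : Set G)))).ker := by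
    rw [hk]
    exact hQp.of_equiv (Subgroup.subgroupOfEquivOfLe Subgroup.le_normalizer).symm
  have h2 := K9.H35.card_up hs (⊤ : Subgroup _)
  have h3 := K9.H35.lnum_up hF hs hkp (⊤ : Subgroup _) (br Q e)
  rw [K9.H35.up_top, hkc, Subgroup.card_top] at h2
  rw [K9.H35.up_top] at h3
  unfold YQ
  rw [h1, (K9.H75.lbr ℓ F hF G e he Q (Subgroup.normalizer (Q : Set G)) hQp
    Subgroup.le_normalizer le_rfl).1, h3, h2]
  push_cast
  ring

theorem cha (hREC : RecStmt) : ChaStmt := by
  classical
  intro ℓ hℓ M _ hM G _ _ e he V hV hVb hY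
  have hF : GoodF ℓ (FF M) := H50.fld ℓ hℓ.out M hM
  have hfin : Fintype (Subgroup G) := Fintype.ofFinite _
  rw [hREC ℓ (FF M) hF G e he.1]
  have hfmg := (K9.H69.fmg ℓ M hM G e he V hV).1
  have hW : ∑ᶠ (Q : Subgroup G) (_ : IsPGroup ℓ Q ∧ Q ≠ ⊥), (Nat.card Q : ℤ) * YQ ℓ e Q =
      (Nat.card G : ℤ) * (lnum (Subgroup.normalizer (V : Set G)) e : ℤ) := by
    rw [finsum_eq_sum_of_fintype]
    simp only [finsum_eq_if]
    rw [← Finset.sum_filter]
    have h1 : Finset.univ.filter (fun W : Subgroup G => K9.H35.CJ V W) ⊆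
        Finset.univ.filter (fun W : Subgroup G => IsPGroup ℓ W ∧ W ≠ ⊥) := by
      intro W hW
      obtain ⟨-, g, rfl⟩ := Finset.mem_filter.1 hW
      refine Finset.mem_filter.2 ⟨Finset.mem_univ _, ?_, ?_⟩
      · exact hV.pg.map _
      · intro h
        apply hVb
        have h2 := card_conjS g V
        rw [h, Subgroup.card_bot] at h2
        exact Subgroup.card_eq_one.1 h2.symm
    rw [← Finset.sum_subset h1]
    · have h2 : ∀ W ∈ Finset.univ.filter (fun W : Subgroup G => K9.H35.CJ V W),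
          (Nat.card W : ℤ) * YQ ℓ e W =
          (Nat.card (Subgroup.normalizer (V : Set G)) : ℤ) *
            lnum (Subgroup.normalizer (V : Set G)) e := by
        intro W hW
        obtain ⟨-, g, rfl⟩ := Finset.mem_filter.1 hW
        rw [term_max hF he.1 (Q := conjS g V) (hV.pg.map _)
          (fun R h3 h4 => (hV.mx R h3 h4).trans (card_conjS g V).ge)]
        rw [BN.H9.norm_conjS, card_conjS, K9.H35.lnum_conjS he.1.1]
      rw [Finset.sum_congr rfl h2, Finset.sum_const, nsmul_eq_mul, ← mul_assoc,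
        ← K9.H35.card_conj V]
      push_cast
      ring
    · intro W hW hW2
      obtain ⟨-, hWp, hWb⟩ := Finset.mem_filter.1 hW
      by_cases hg : Gd e W
      · obtain ⟨g, hg2⟩ := hfmg W hWp hg
        have h3 : Nat.card W < Nat.card V := by
          refine lt_of_le_of_ne (hV.mx W hWp hg) ?_
          intro h4
          apply hW2
          refine Finset.mem_filter.2 ⟨Finset.mem_univ _, g, ?_⟩
          refine Subgroup.eq_of_le_of_card_ge hg2 ?_
          rw [card_conjS, h4]
        rw [hY W hWp hWb hg h3, mul_zero]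
      · have h3 : (fun t : Subgroup.normalizer (W : Set G) => br W e t) = 0 := by
          funext t
          by_cases ht : (t : G) ∈ Subgroup.centralizer (W : Set G)
          · change br W e t = 0
            rw [H66.br_of_mem ht]
            by_contra h4
            exact hg ⟨t, ht, h4⟩
          · exact H66.br_of_not_mem ht
        have h4 : YQ ℓ e W = 0 := by
          unfold YQ
          rw [h3, PP.H75.push_zero, H67.YY_zero hF]
        rw [h4, mul_zero]
  rw [hW, K9.H35.lnum_top, (K9.H75.lbr ℓ (FF M) hF G e he.1 V (Subgroup.normalizer (V : Set G))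
    hV.pg Subgroup.le_normalizer le_rfl).1]
  have h5 : lnum (Subgroup.normalizer (V : Set G)) (br V e) =
      ln (fun t : Subgroup.normalizer (V : Set G) => br V e t) := rfl
  have h6 : {f : G → FF M | f ∈ IBr (FF M) G ∧ actF e f = f}.ncard = ln e := rfl
  rw [← h5, h6]
  ring

end Pool.Agent.PP.T3.H41
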