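import Pool.Agent.AT3.Stmts3
import Pool.Agent.Helper3_K9.Lbd

/-!
# Squad AT3, row NIL: blocks with an abelian defect group and inertial index one
-/

open scoped BigOperators

noncomputable section

namespace Pool.Agent.PP.T3.H41

open Pool.Agent.Helper51_AWC Pool.Agent.Helper79_WRA Pool.Agent.PP Pool.Agent.PP.KF
open Pool.Agent.PP.K9 Pool.Agent.PP.K9.H97 Pool.Agent.PP.H75

attribute [local instance] Ideal.Quotient.field

theorem irrF (G : Type) [Group G] [Finite G] : (Irr G).Finite := by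
  have := Fintype.ofFinite G
  exact irr_finite'

section tools

variable (M : Ideal (integralClosure ℤ ℂ)) [M.IsMaximal]

theorem irrE_fin {G : Type} [Group G] [Finite G] (b : G → FF M) : (IrrE M b).Finite :=
  (irrF G).subset fun _ h => h.1

theorem irrE_ne {ℓ : ℕ} [Fact ℓ.Prime] (hM : (ℓ : integralClosure ℤ ℂ) ∈ M) {G : Type} [Group G]
    [Finite G] {b : G → FF M} (hb : IsBlk b) : ∃ χ, χ ∈ IrrE M b := by
  obtain ⟨h1, h2⟩ := H3.lbd ℓ M hM G b hb.1 hb.2.1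
  have h3 : 0 < (IrrE M b).ncard := lt_of_lt_of_le one_pos (h1.trans h2)
  exact (Set.ncard_pos (irrE_fin M b)).1 h3

theorem dg_uniq {ℓ : ℕ} [Fact ℓ.Prime] (hM : (ℓ : integralClosure ℤ ℂ) ∈ M) {G : Type} [Group G]
    [Finite G] {b : G → FF M} (hb : IsBlk b) {d d' : ℕ} (h : Dg M b d) (h' : Dg M b d') :
    d = d' := by
  obtain ⟨χ, hχ⟩ := irrE_ne M hM hb
  have h1 := (h.2 χ hχ).symm.trans (h'.2 χ hχ)
  exact_mod_cast h1

/-- the sum of the squares `|gv/d|²` over all the irreducible characters -/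
theorem sum_gv (hCO1 : Co1Stmt) {ℓ : ℕ} [Fact ℓ.Prime] (hM : (ℓ : integralClosure ℤ ℂ) ∈ M)
    {H : Type} [Group H] [Finite H] {x : H} (hx : El ℓ x) {c : H → FF M} (hc : Ix (Cu x) c)
    {d N : ℕ} (hd : Dg M (fun t : Cu x => c t) d)
    (hN : (IrrE M (fun t : Cu x => c t)).ncard = N) :
    ∑ χ ∈ (irrF H).toFinset, Complex.normSq (gv M (Cu x) x c χ / d) = N := by
  have h1 := hCO1 ℓ M hM H x hx c hc
  have hfin := irrE_fin M (fun t : Cu x => c t)
  rw [finsum_mem_eq_finite_toFinset_sum _ (irrF H),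
    finsum_mem_eq_finite_toFinset_sum _ hfin] at h1
  have h2 : ∑ κ ∈ hfin.toFinset, (κ 1 : ℂ) ^ 2 = ((N * d ^ 2 : ℕ) : ℂ) := by
    rw [Finset.sum_congr rfl (g := fun _ => (d : ℂ) ^ 2)
      (fun κ hκ => by rw [hd.2 κ (hfin.mem_toFinset.1 hκ)]), Finset.sum_const, nsmul_eq_mul,
      ← Set.ncard_eq_toFinset_card _ hfin, hN]
    push_cast
    ring
  rw [h2] at h1
  have h3 : ((∑ χ ∈ (irrF H).toFinset, Complex.normSq (gv M (Cu x) x c χ) : ℝ) : ℂ) =
      (((N * d ^ 2 : ℕ) : ℝ) : ℂ) := by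
    rw [← Complex.ofReal_natCast] at h1
    rw [← h1]
    push_cast
    refine Finset.sum_congr rfl fun χ _ => ?_
    rw [Complex.mul_conj]
  have h4 := Complex.ofReal_injective h3
  have hd0 : (0 : ℝ) < d := by exact_mod_cast hd.1
  have h5 : ∀ χ : H → ℂ, Complex.normSq (gv M (Cu x) x c χ / d) =
      Complex.normSq (gv M (Cu x) x c χ) / (d : ℝ) ^ 2 := by
    intro χ
    rw [Complex.normSq_div, Complex.normSq_natCast, sq]
  rw [Finset.sum_congr rfl (fun χ _ => h5 χ), ← Finset.sum_div, h4]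
  push_cast
  field_simp

end tools

theorem nil (hLOC : LocStmt) (hLSB : LsbStmt) (hCEN : CenStmt) (hGSM : GsmStmt) (hNIB : NibStmt)
    (hCO1 : Co1Stmt) : NilStmt := by
  intro ℓ hℓ M _ hM
  have hF : GoodF ℓ (FF M) := H50.fld ℓ Fact.out M hM
  suffices hmain : ∀ n : ℕ, ∀ (H : Type) [Group H] [Finite H], Nat.card H = n →
      ∀ (b : H → FF M) (V : Subgroup H) (γ : H → FF M), Ld ℓ b V γ → ix V γ = 1 →
      (∃ d, Dg M b d) ∧ (IrrE M b).ncard = Nat.card V ∧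
      ∀ x ∈ V, x ∉ Subgroup.center H → ∀ c, Lc b V γ x c → ∀ d : ℕ,
        Dg M (fun t : Cu x => c t) d →
        ∀ κ ∈ IrrE M b, Complex.normSq (gv M (Cu x) x c κ / d) = 1 by
    intro H _ _ b V γ hL hix
    exact hmain _ H rfl b V γ hL hix
  intro n
  induction n using Nat.strong_induction_on with
  | _ n ih =>
  intro H _ _ hn b V γ hL hix
  classical
  by_cases hVz : V ≤ Subgroup.center H
  · obtain ⟨h1, h2⟩ := hCEN ℓ M hM H b hL.blk V hL.tp hVz
    exact ⟨h1, h2, fun x hx hx2 => absurd (hVz hx) hx2⟩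
  have := Fintype.ofFinite H
  obtain ⟨S, hS⟩ : ∃ S : Finset H, ∀ x, x ∈ S ↔ x ∈ V ∧ x ∉ Subgroup.center H :=
    ⟨Finset.univ.filter fun x => x ∈ V ∧ x ∉ Subgroup.center H, fun x => by simp⟩
  obtain ⟨Z, hZ⟩ : ∃ Z : Finset H, ∀ x, x ∈ Z ↔ x ∈ V ∧ x ∈ Subgroup.center H :=
    ⟨Finset.univ.filter fun x => x ∈ V ∧ x ∈ Subgroup.center H, fun x => by simp⟩
  -- `V` is an `ℓ`-group
  have hEl : ∀ x ∈ V, El ℓ x := by
    intro x hx
    obtain ⟨k, hk⟩ := hL.tp.pg ⟨x, hx⟩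
    exact ⟨k, congrArg Subtype.val hk⟩
  -- the local blocks
  have hTC : Tg V γ ≤ Subgroup.centralizer (V : Set H) := Subgroup.relIndex_eq_one.1 hix
  have hloc : ∀ x : H, ∃ (c : H → FF M) (d : ℕ), x ∈ S → Lc b V γ x c ∧
      Dg M (fun t : Cu x => c t) d ∧ (IrrE M (fun t : Cu x => c t)).ncard = Nat.card V := by
    intro x
    by_cases hx : x ∈ S
    · obtain ⟨hxV, hxc⟩ := (hS x).1 hx
      obtain ⟨⟨c, hc⟩, -⟩ := hLOC ℓ (FF M) hF H b V γ hL x hxV
      obtain ⟨h1, h2, h3, h4, h5⟩ := hLSB ℓ M hM H b V γ hL x hxV c hc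
      have hlt : Nat.card (Cu x) < n := by
        rw [← hn]
        refine lt_of_le_of_ne (Subgroup.card_le_card_group _) fun h => hxc ?_
        have htop : Cu x = ⊤ := Subgroup.eq_top_of_card_eq _ h
        rw [Subgroup.mem_center_iff]
        intro g
        have hg : g ∈ Cu x := by rw [htop]; exact Subgroup.mem_top g
        exact Subgroup.mem_centralizer_singleton_iff.1 hg
      have h6 : ix (V.subgroupOf (Cu x)) (fun t : Cu x => γ t) = 1 := by
        rw [h2]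
        exact Subgroup.relIndex_eq_one.2 (inf_le_left.trans hTC)
      obtain ⟨⟨d, hd⟩, h7, -⟩ := ih _ hlt (Cu x) rfl _ _ _ h1 h6
      exact ⟨c, d, fun _ => ⟨hc, hd, h7.trans h3⟩⟩
    · exact ⟨0, 0, fun h => absurd h hx⟩
  choose c d hcd using hloc
  -- cardinalities
  have hSZ : S.card + Z.card = Nat.card V := by
    have h1 : Disjoint S Z := by
      rw [Finset.disjoint_left]
      intro x hx hx2
      exact ((hS x).1 hx).2 ((hZ x).1 hx2).2
    rw [← Finset.card_union_of_disjoint h1, Nat.card_eq_fintype_card]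
    refine (Fintype.card_of_subtype _ fun x => ?_).symm
    rw [Finset.mem_union, hS, hZ]
    constructor
    · rintro (h | h)
      · exact h.1
      · exact h.1
    · intro h
      by_cases h2 : x ∈ Subgroup.center H
      · exact Or.inr ⟨h, h2⟩
      · exact Or.inl ⟨h, h2⟩
  have hS1 : ∀ x ∈ S, x ∈ V ∧ x ≠ 1 := by
    intro x hx
    obtain ⟨h1, h2⟩ := (hS x).1 hx
    refine ⟨h1, fun h => h2 ?_⟩
    rw [h]
    exact Subgroup.one_mem _
  have hSp : ∀ x ∈ S, ∀ j : ℕ, ¬ ℓ ∣ j → x ^ j ∈ S := by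
    intro x hx j hj
    obtain ⟨h1, h2⟩ := (hS x).1 hx
    refine (hS _).2 ⟨V.pow_mem h1 j, fun h3 => h2 ?_⟩
    obtain ⟨k, hk⟩ := hEl x h1
    have h4 : j.Coprime (orderOf x) := by
      refine Nat.Coprime.coprime_dvd_right (orderOf_dvd_of_pow_eq_one hk) ?_
      exact Nat.Coprime.pow_right _ (((Nat.Prime.coprime_iff_not_dvd hℓ.out).2 hj).symm)
    obtain ⟨m, hm⟩ := exists_pow_eq_self_of_coprime h4
    rw [← hm]
    exact Subgroup.pow_mem _ h3 m
  have hSpos : 0 < (S.card : ℝ) := by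
    obtain ⟨x, hx, hx2⟩ := Set.not_subset.1 hVz
    exact_mod_cast Finset.card_pos.2 ⟨x, (hS x).2 ⟨hx, hx2⟩⟩
  have hZpos : 0 < (Z.card : ℝ) := by
    exact_mod_cast Finset.card_pos.2 ⟨1, (hZ 1).2 ⟨V.one_mem, Subgroup.one_mem _⟩⟩
  have hVr : (S.card : ℝ) + Z.card = Nat.card V := by exact_mod_cast hSZ
  have hVpos : 0 < (Nat.card V : ℝ) := by rw [← hVr]; linarith
  have hBf := irrE_fin M b
  obtain ⟨B, hBd⟩ : ∃ B : Finset (H → ℂ), B = hBf.toFinset := ⟨_, rfl⟩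
  have hBm : ∀ κ, κ ∈ B ↔ κ ∈ IrrE M b := fun κ => by rw [hBd]; exact hBf.mem_toFinset
  obtain ⟨κ₀, hκ₀⟩ := irrE_ne M hM hL.blk
  have hBk : (B.card : ℝ) = (IrrE M b).ncard := by
    rw [hBd, ← Set.ncard_eq_toFinset_card _ hBf]
  obtain ⟨σ, hσ⟩ : ∃ σ : ℝ, σ = ∑ᶠ χ ∈ IrrE M b, Complex.normSq (χ 1) := ⟨_, rfl⟩
  have hσ2 : σ = ∑ χ ∈ B, Complex.normSq (χ 1) := by
    rw [hσ, finsum_mem_eq_finite_toFinset_sum _ hBf, hBd]
  have hqpos : ∀ κ ∈ IrrE M b, 0 < Complex.normSq (κ 1) := fun κ hκ =>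
    Complex.normSq_pos.2 (irr_one_ne hκ.1)
  have hσpos : 0 < σ := by
    rw [hσ2]
    exact Finset.sum_pos (fun κ hκ => hqpos κ ((hBm κ).1 hκ)) ⟨κ₀, (hBm κ₀).2 hκ₀⟩
  have hgsm := fun κ (hκ : κ ∈ IrrE M b) => hGSM ℓ M hM H b V γ hL S hS1 hSp c d
    (fun x hx => ⟨(hcd x hx).1, (hcd x hx).2.1⟩) κ hκ
  have hnib : ∀ κ ∈ IrrE M b,
      (∑ x ∈ S, Complex.normSq (gv M (Cu x) x (c x) κ / d x)) / Nat.card V +
        Z.card * Complex.normSq (κ 1) / σ ≤ 1 := by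
    intro κ hκ
    rw [hσ]
    exact hNIB ℓ M hM H b V γ hL hix S Z hS hZ c d (fun x hx => hcd x hx) κ hκ
  -- (1)
  have h1 : ∀ κ ∈ IrrE M b, Nat.card V * Complex.normSq (κ 1) ≤ σ := by
    intro κ hκ
    have e1 := (hgsm κ hκ).1
    have e2 := hnib κ hκ
    have e3 : (S.card : ℝ) / Nat.card V ≤
        (∑ x ∈ S, Complex.normSq (gv M (Cu x) x (c x) κ / d x)) / Nat.card V := by
      gcongr
    have e4 : (Z.card : ℝ) * Complex.normSq (κ 1) / σ ≤ Z.card / Nat.card V := by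
      have e5 : (Z.card : ℝ) / Nat.card V = 1 - S.card / Nat.card V := by
        rw [← hVr]
        have : (S.card : ℝ) + Z.card ≠ 0 := by rw [hVr]; exact hVpos.ne'
        field_simp
        ring
      rw [e5]
      linarith
    rw [div_le_div_iff₀ hσpos hVpos] at e4
    have e6 : (Z.card : ℝ) * (Nat.card V * Complex.normSq (κ 1)) ≤ Z.card * σ := by
      calc (Z.card : ℝ) * (Nat.card V * Complex.normSq (κ 1))
          = Z.card * Complex.normSq (κ 1) * Nat.card V := by ring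
        _ ≤ Z.card * σ := e4
    exact le_of_mul_le_mul_left e6 hZpos
  have h2 : (Nat.card V : ℝ) ≤ B.card := by
    have e1 : (Nat.card V : ℝ) * σ ≤ B.card * σ := by
      calc (Nat.card V : ℝ) * σ = ∑ κ ∈ B, Nat.card V * Complex.normSq (κ 1) := by
            rw [← Finset.mul_sum, ← hσ2]
        _ ≤ ∑ κ ∈ B, σ := Finset.sum_le_sum fun κ hκ => h1 κ ((hBm κ).1 hκ)
        _ = B.card * σ := by rw [Finset.sum_const, nsmul_eq_mul]
    exact le_of_mul_le_mul_right e1 hσpos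
  have h3 : (B.card : ℝ) ≤ Nat.card V := by
    have e1 : (B.card : ℝ) * S.card ≤ Nat.card V * S.card := by
      calc (B.card : ℝ) * S.card = ∑ κ ∈ B, (S.card : ℝ) := by
            rw [Finset.sum_const, nsmul_eq_mul]
        _ ≤ ∑ κ ∈ B, ∑ x ∈ S, Complex.normSq (gv M (Cu x) x (c x) κ / d x) :=
            Finset.sum_le_sum fun κ hκ => (hgsm κ ((hBm κ).1 hκ)).1
        _ = ∑ x ∈ S, ∑ κ ∈ B, Complex.normSq (gv M (Cu x) x (c x) κ / d x) :=
            Finset.sum_comm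
        _ ≤ ∑ x ∈ S, ∑ κ ∈ (irrF H).toFinset,
              Complex.normSq (gv M (Cu x) x (c x) κ / d x) := by
            refine Finset.sum_le_sum fun x _ => ?_
            refine Finset.sum_le_sum_of_subset_of_nonneg ?_ fun _ _ _ => Complex.normSq_nonneg _
            intro κ hκ
            exact (irrF H).mem_toFinset.2 ((hBm κ).1 hκ).1
        _ = ∑ x ∈ S, (Nat.card V : ℝ) := by
            refine Finset.sum_congr rfl fun x hx => ?_
            obtain ⟨k1, k2, k3⟩ := hcd x hx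
            exact sum_gv M hCO1 hM (hEl x (hS1 x hx).1) k1.blk.ix k2 k3
        _ = Nat.card V * S.card := by rw [Finset.sum_const, nsmul_eq_mul, mul_comm]
    exact le_of_mul_le_mul_right e1 hSpos
  have h4 : (B.card : ℝ) = Nat.card V := le_antisymm h3 h2
  have h5 : ∀ κ ∈ IrrE M b, Nat.card V * Complex.normSq (κ 1) = σ := by
    have e1 : ∑ κ ∈ B, (σ - Nat.card V * Complex.normSq (κ 1)) = 0 := by
      rw [Finset.sum_sub_distrib, Finset.sum_const, nsmul_eq_mul, ← Finset.mul_sum, ← hσ2, h4,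
        sub_self]
    have e2 := (Finset.sum_eq_zero_iff_of_nonneg (fun κ hκ =>
      sub_nonneg.2 (h1 κ ((hBm κ).1 hκ)))).1 e1
    intro κ hκ
    have e3 := e2 κ ((hBm κ).2 hκ)
    linarith
  refine ⟨?_, ?_, ?_⟩
  · obtain ⟨d₀, hd₀, hd₀'⟩ := irr_one hκ₀.1
    refine ⟨d₀, hd₀, fun κ hκ => ?_⟩
    obtain ⟨d₁, hd₁, hd₁'⟩ := irr_one hκ.1
    have e1 := (h5 κ hκ).trans (h5 κ₀ hκ₀).symm
    have e2 := mul_left_cancel₀ hVpos.ne' e1
    rw [hd₀', hd₁', Complex.normSq_natCast, Complex.normSq_natCast] at e2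
    have e3 : d₁ * d₁ = d₀ * d₀ := by exact_mod_cast e2
    rw [hd₁', Nat.mul_self_inj.1 e3]
  · have e1 := hBk.symm.trans h4
    exact_mod_cast e1
  · intro x hxV hxc c' hc' d' hd' κ hκ
    have hxS : x ∈ S := (hS x).2 ⟨hxV, hxc⟩
    obtain ⟨k1, k2, k3⟩ := hcd x hxS
    have e1 : c' = c x := (hLOC ℓ (FF M) hF H b V γ hL x hxV).2 _ _ hc' k1
    subst e1
    have e2 : d' = d x := dg_uniq M hM k1.blk.blk hd' k2
    subst e2
    obtain ⟨g1, g2⟩ := hgsm κ hκ
    refine g2 (le_antisymm ?_ g1) x hxS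
    have e3 := hnib κ hκ
    have e4 : (Z.card : ℝ) * Complex.normSq (κ 1) / σ = Z.card / Nat.card V := by
      rw [← h5 κ hκ]
      have := (hqpos κ hκ).ne'
      field_simp
    rw [e4, ← add_div, div_le_one hVpos] at e3
    linarith

end Pool.Agent.PP.T3.H41
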