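import Pool.Agent.Helper41_AT3.NIL
import Pool.Agent.Helper19_K9.OMG
import Pool.Agent.Helper3_K9.Psi
import Pool.Agent.Helper17_PP.Prv
import Pool.Agent.Helper9_PP.Pbk

/-!
# Squad AT3, row NIT: the degrees modulo `ℓ` (inertial index one)
-/

open scoped BigOperators ComplexConjugate

noncomputable section

namespace Pool.Agent.PP.T3.H41

open Pool.Agent.Helper51_AWC Pool.Agent.Helper79_WRA Pool.Agent.PP Pool.Agent.PP.KF
open Pool.Agent.PP.K9 Pool.Agent.PP.K9.H97 Pool.Agent.PP.H75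

attribute [local instance] Ideal.Quotient.field

section tools

variable {M : Ideal (integralClosure ℤ ℂ)} [M.IsMaximal]

/-- the residue of a root of unity of `ℓ`-power order -/
theorem rr_root {ℓ : ℕ} [hℓ : Fact ℓ.Prime] (hM : (ℓ : integralClosure ℤ ℂ) ∈ M) {ζ : ℂ} {k : ℕ}
    (hζ : ζ ^ ℓ ^ k = 1) : ζ ∈ RM M ∧ rr M ζ = 1 := by
  have hq : ℓ ^ k ≠ 0 := pow_ne_zero _ hℓ.out.ne_zero
  have hR : ζ ∈ RM M := by
    refine RM_of_int ⟨Polynomial.X ^ ℓ ^ k - 1, Polynomial.monic_X_pow_sub_C 1 hq, ?_⟩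
    simp [hζ]
  have hch : CharP (FF M) ℓ := (H50.fld ℓ Fact.out M hM).char
  refine ⟨hR, ?_⟩
  have h1 : (rr M ζ - 1) ^ ℓ ^ k = rr M ζ ^ ℓ ^ k - 1 ^ ℓ ^ k :=
    sub_pow_char_pow_of_commute _ _ (Commute.all _ _)
  have h2 : rr M (ζ ^ ℓ ^ k) = rr M ζ ^ ℓ ^ k := map_pow (rrHom M) ⟨ζ, hR⟩ _
  rw [← h2, hζ, rr_one, one_pow, sub_self] at h1
  exact sub_eq_zero.1 ((pow_eq_zero_iff hq).1 h1)

theorem rr_val {ℓ : ℕ} [hℓ : Fact ℓ.Prime] (hM : (ℓ : integralClosure ℤ ℂ) ∈ M) {ζ : ℂ} {k : ℕ}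
    (hζ : ζ ^ ℓ ^ k = 1) (m : ℕ → ℤ) (s : Finset ℕ) :
    (∑ i ∈ s, (m i : ℂ) * ζ ^ i) ∈ RM M ∧
      rr M (∑ i ∈ s, (m i : ℂ) * ζ ^ i) = ((∑ i ∈ s, m i : ℤ) : FF M) := by
  have h1 : ∀ i : ℕ, ζ ^ i ∈ RM M ∧ rr M (ζ ^ i) = 1 := by
    intro i
    refine rr_root hM (k := k) ?_
    rw [← pow_mul, mul_comm, pow_mul, hζ, one_pow]
  have h2 : ∀ i ∈ s, (m i : ℂ) * ζ ^ i ∈ RM M := fun i _ =>
    (RM M).mul_mem (rr_int (m i)).1 (h1 i).1
  refine ⟨Subring.sum_mem _ h2, ?_⟩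
  rw [rr_sum _ _ h2, Int.cast_sum]
  refine Finset.sum_congr rfl fun i _ => ?_
  rw [rr_mul (rr_int (m i)).1 (h1 i).1, (rr_int (m i)).2, (h1 i).2, mul_one]

end tools

theorem nit_central {ℓ : ℕ} [hℓ : Fact ℓ.Prime] (M : Ideal (integralClosure ℤ ℂ)) [M.IsMaximal]
    (hM : (ℓ : integralClosure ℤ ℂ) ∈ M) (H : Type) [Group H] [Finite H] (b : H → FF M)
    (V : Subgroup H) (γ : H → FF M) (hL : Ld ℓ b V γ) (hVz : V ≤ Subgroup.center H) (d c : ℕ)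
    (hd : Dg M b d) (hc : Dg M (fun t : Subgroup.centralizer (V : Set H) => γ t) c) :
    Nat.card (Subgroup.centralizer (V : Set H)) = Nat.card H ∧ c = d := by
  have htop : Subgroup.centralizer (V : Set H) = ⊤ := by
    rw [eq_top_iff]
    intro g _
    rw [Subgroup.mem_centralizer_iff]
    intro v hv
    exact (Subgroup.mem_center_iff.1 (hVz hv) g).symm
  refine ⟨by rw [htop, Subgroup.card_top], ?_⟩
  have hbrb : br V b = b := funext fun x => H66.br_of_mem (by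
    rw [htop]
    exact Subgroup.mem_top x)
  have hγb : IsBlk γ := by
    have h1 : ∀ C : Subgroup H, C = ⊤ → IsBlk (fun t : C => γ t) → IsBlk γ := by
      rintro _ rfl h
      exact H9.blk_tr Subgroup.topEquiv.symm h
    exact h1 _ htop hL.gam.blk
  have hmul : mulF b γ = γ := by
    have h1 := hL.und
    rwa [hbrb] at h1
  have hbγ : b = γ := H17.blk_eq hL.blk hγb (by
    rw [hmul]
    exact hγb.2.1)
  obtain ⟨κ, hκ⟩ := irrE_ne M hM hL.blk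
  have hsurj : Function.Surjective (Subgroup.centralizer (V : Set H)).subtype := by
    intro y
    exact ⟨⟨y, by rw [htop]; exact Subgroup.mem_top y⟩, rfl⟩
  have hpush : PP.H75.push (Subgroup.centralizer (V : Set H)).subtype
      (fun t : Subgroup.centralizer (V : Set H) => γ t) = γ := by
    classical
    have := Fintype.ofFinite (Subgroup.centralizer (V : Set H))
    funext y
    rw [PP.H75.push_eq]
    rw [Finset.sum_eq_single (⟨y, by rw [htop]; exact Subgroup.mem_top y⟩ :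
      Subgroup.centralizer (V : Set H))]
    · exact if_pos rfl
    · intro z _ hz
      exact if_neg fun h => hz (Subtype.ext h)
    · intro h
      exact absurd (Finset.mem_univ _) h
  have hpsi := (K9.H3.psi M _ _ (Subgroup.centralizer (V : Set H)).subtype hsurj
    (fun t : Subgroup.centralizer (V : Set H) => γ t) hL.gam.blk.1.1).1
  rw [hpush] at hpsi
  have hκ2 : κ ∈ IrrE M γ := by rw [← hbγ]; exact hκ
  rw [hpsi] at hκ2
  have h1 := hc.2 _ hκ2.2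
  have h2 := hd.2 κ hκ
  have h3 : (c : ℂ) = d := h1.symm.trans h2
  exact_mod_cast h3

theorem nit (hLOC : LocStmt) (hLSB : LsbStmt) (hNIL : NilStmt) (hINR : InrStmt)
    (hRSV : RsvStmt) : NitStmt := by
  intro ℓ hℓ M _ hM
  have hF : GoodF ℓ (FF M) := H50.fld ℓ Fact.out M hM
  suffices hmain : ∀ n : ℕ, ∀ (H : Type) [Group H] [Finite H], Nat.card H = n →
      ∀ (b : H → FF M) (V : Subgroup H) (γ : H → FF M), Ld ℓ b V γ → ix V γ = 1 →
      ∀ d c : ℕ, Dg M b d → Dg M (fun t : Subgroup.centralizer (V : Set H) => γ t) c →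
      ∃ ε : ℤ, (ε = 1 ∨ ε = -1) ∧
      ((Nat.card H * c : ℂ) / (Nat.card (Subgroup.centralizer (V : Set H)) * d)) ∈ RM M ∧
      rr M ((Nat.card H * c : ℂ) / (Nat.card (Subgroup.centralizer (V : Set H)) * d)) =
        (ε : FF M) by
    intro H _ _ b V γ hL hix
    exact hmain _ H rfl b V γ hL hix
  intro n
  induction n using Nat.strong_induction_on with
  | _ n ih =>
  intro H _ _ hn b V γ hL hix d c hd hc
  have hTC : Tg V γ ≤ Subgroup.centralizer (V : Set H) := Subgroup.relIndex_eq_one.1 hix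
  have hd0 : (d : ℂ) ≠ 0 := Nat.cast_ne_zero.2 hd.1.ne'
  have hH0 : (Nat.card H : ℂ) ≠ 0 := Nat.cast_ne_zero.2 Nat.card_pos.ne'
  by_cases hVz : V ≤ Subgroup.center H
  · obtain ⟨h1, h2⟩ := nit_central M hM H b V γ hL hVz d c hd hc
    refine ⟨1, Or.inl rfl, ?_⟩
    rw [h1, h2, div_self (mul_ne_zero hH0 hd0), rr_one, Int.cast_one]
    exact ⟨(RM M).one_mem, rfl⟩
  obtain ⟨x, hxV, hxc⟩ := Set.not_subset.1 hVz
  obtain ⟨⟨bx, hbx⟩, -⟩ := hLOC ℓ (FF M) hF H b V γ hL x hxV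
  obtain ⟨l1, l2, l3, l4, l5⟩ := hLSB ℓ M hM H b V γ hL x hxV bx hbx
  have hlt : Nat.card (Cu x) < n := by
    rw [← hn]
    refine lt_of_le_of_ne (Subgroup.card_le_card_group _) fun h => hxc ?_
    have htop : Cu x = ⊤ := Subgroup.eq_top_of_card_eq _ h
    refine Subgroup.mem_center_iff.2 fun g => ?_
    have hg : g ∈ Cu x := by rw [htop]; exact Subgroup.mem_top g
    exact Subgroup.mem_centralizer_singleton_iff.1 hg
  have h6 : ix (V.subgroupOf (Cu x)) (fun t : Cu x => γ t) = 1 := by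
    rw [l2]
    exact Subgroup.relIndex_eq_one.2 (inf_le_left.trans hTC)
  obtain ⟨⟨dx, hdx⟩, -, -⟩ := hNIL ℓ M hM (Cu x) _ _ _ l1 h6
  obtain ⟨ε₁, hε₁, r1, r2⟩ := ih _ hlt (Cu x) rfl _ _ _ l1 h6 dx c hdx (l5 c hc)
  rw [l4] at r1 r2
  obtain ⟨κ, hκ⟩ := irrE_ne M hM hL.blk
  have hnil := (hNIL ℓ M hM H b V γ hL hix).2.2 x hxV hxc bx hbx dx hdx κ hκ
  obtain ⟨k, hk⟩ := hL.tp.pg ⟨x, hxV⟩
  have hk' : x ^ ℓ ^ k = 1 := congrArg Subtype.val hk
  have hq : 0 < ℓ ^ k := pow_pos hℓ.out.pos _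
  obtain ⟨ζ, hζ⟩ : ∃ ζ : ℂ, IsPrimitiveRoot ζ (ℓ ^ k) :=
    ⟨_, Complex.isPrimitiveRoot_exp _ hq.ne'⟩
  obtain ⟨m, hm⟩ := hINR M H x (ℓ ^ k) hq hk' bx hbx.blk.ix dx hdx ζ hζ κ hκ.1
  obtain ⟨v, hv⟩ : ∃ v : ℂ, v = ∑ i ∈ Finset.range (ℓ ^ k), (m i : ℂ) * ζ ^ i := ⟨_, rfl⟩
  have hdx0 : (dx : ℂ) ≠ 0 := Nat.cast_ne_zero.2 hdx.1.ne'
  have hm1 : gv M (Cu x) x bx κ = dx * v := by
    have h1 := hm 1
    rw [pow_one] at h1
    rw [h1, hv]
    simp only [mul_one]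
  rw [hm1, mul_div_cancel_left₀ _ hdx0] at hnil
  have hvc : v * conj v = 1 := by
    rw [Complex.mul_conj, hnil, Complex.ofReal_one]
  obtain ⟨v1, v2⟩ := rr_val hM hζ.pow_eq_one m (Finset.range (ℓ ^ k))
  have hζc : (conj ζ) ^ ℓ ^ k = 1 := by rw [← map_pow, hζ.pow_eq_one, map_one]
  obtain ⟨w1, w2⟩ := rr_val hM hζc m (Finset.range (ℓ ^ k))
  have hcv : ∑ i ∈ Finset.range (ℓ ^ k), (m i : ℂ) * (conj ζ) ^ i = conj v := by
    rw [hv, map_sum]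
    refine Finset.sum_congr rfl fun i _ => ?_
    rw [map_mul, map_pow, map_intCast]
  rw [← hv] at v1 v2
  rw [hcv] at w1 w2
  obtain ⟨nn, hnn⟩ : ∃ nn : ℤ, nn = ∑ i ∈ Finset.range (ℓ ^ k), m i := ⟨_, rfl⟩
  rw [← hnn] at v2 w2
  have hn2 : (nn : FF M) * nn = 1 := by
    have h1 := rr_mul v1 w1
    rw [hvc, rr_one, v2, w2] at h1
    exact h1.symm
  obtain ⟨ε₂, hε₂, e2⟩ : ∃ ε : ℤ, (ε = 1 ∨ ε = -1) ∧ (nn : FF M) = ε := by
    rcases mul_self_eq_one_iff.1 hn2 with h | h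
    · exact ⟨1, Or.inl rfl, by rw [h, Int.cast_one]⟩
    · exact ⟨-1, Or.inr rfl, by rw [h, Int.cast_neg, Int.cast_one]⟩
  rw [e2] at w2
  have hCx : Subgroup.centralizer (V : Set H) ≤ Cu x :=
    Subgroup.centralizer_le (Set.singleton_subset_iff.2 hxV)
  obtain ⟨-, o⟩ := K9.H19.omg M H x (fun t : Cu x => bx t) hbx.blk.blk.1 x
    (Subgroup.mem_zpowers x)
  obtain ⟨o1, o2⟩ := o κ hκ.1
  have o3 := hRSV ℓ M hM H b V γ hL x hxV bx hbx κ hκ
  have o4 : (Cu x).relIndex (Tg V γ) = 1 := Subgroup.relIndex_eq_one.2 (hTC.trans hCx)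
  rw [o4, Nat.cast_one] at o3
  have o5 : gbv (Cu x) x (eh M (fun t : Cu x => bx t)) κ = dx * v := hm1
  rw [o3, o5, hd.2 κ hκ] at o2
  rw [o5, hd.2 κ hκ] at o1
  have hCx0 : (Nat.card (Cu x) : ℂ) ≠ 0 := Nat.cast_ne_zero.2 Nat.card_pos.ne'
  have hCV0 : (Nat.card (Subgroup.centralizer (V : Set H)) : ℂ) ≠ 0 :=
    Nat.cast_ne_zero.2 Nat.card_pos.ne'
  have key : (Nat.card H * c : ℂ) / (Nat.card (Subgroup.centralizer (V : Set H)) * d) =
      (Nat.card (Cu x) * c : ℂ) / (Nat.card (Subgroup.centralizer (V : Set H)) * dx) *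
        ((Nat.card H * (dx * v) / (Nat.card (Cu x) * d)) * conj v) := by
    have h1 : (Nat.card (Cu x) * c : ℂ) / (Nat.card (Subgroup.centralizer (V : Set H)) * dx) *
        ((Nat.card H * (dx * v) / (Nat.card (Cu x) * d)) * conj v) =
        (Nat.card H * c : ℂ) / (Nat.card (Subgroup.centralizer (V : Set H)) * d) *
          (v * conj v) := by
      field_simp
    rw [h1, hvc, mul_one]
  refine ⟨ε₁ * ε₂, ?_, ?_, ?_⟩
  · rcases hε₁ with h | h <;> rcases hε₂ with h' | h' <;> rw [h, h'] <;> norm_num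
  · rw [key]
    exact (RM M).mul_mem r1 ((RM M).mul_mem o1 w1)
  · rw [key, rr_mul r1 ((RM M).mul_mem o1 w1), rr_mul o1 w1, r2, o2, w2, one_mul, Int.cast_mul]

end Pool.Agent.PP.T3.H41
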