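import Pool.Agent.AT3.Stmts3

/-!
# Squad AT3, rows RGL, QTD
-/

open scoped BigOperators

noncomputable section

namespace Pool.Agent.PP.T3.H41

open Pool.Agent.Helper51_AWC Pool.Agent.Helper79_WRA Pool.Agent.PP Pool.Agent.PP.KF
open Pool.Agent.PP.K9 Pool.Agent.PP.K9.H97 Pool.Agent.PP.H75

attribute [local instance] Ideal.Quotient.field

theorem rgl (hLOC : LocStmt) (hLSB : LsbStmt) (hNIL : NilStmt) : RglStmt := by
  intro ℓ _ M _ hM G _ _ e V γ hL u hu
  have hF : GoodF ℓ (FF M) := H50.fld ℓ Fact.out M hM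
  obtain ⟨hu1, hu2, hu3⟩ := hu
  obtain ⟨⟨b, hb⟩, -⟩ := hLOC ℓ (FF M) hF G e V γ hL u hu1
  obtain ⟨h1, h2, h3, h4, h5⟩ := hLSB ℓ M hM G e V γ hL u hu1 b hb
  have h6 : ix (V.subgroupOf (Cu u)) (fun t : Cu u => γ t) = 1 := by
    rw [h2]
    exact Subgroup.relIndex_eq_one.2 hu3
  obtain ⟨⟨d, hd⟩, h7, -⟩ := hNIL ℓ M hM (Cu u) _ _ _ h1 h6
  exact ⟨b, d, hb, hd, h7.trans h3, h6⟩

theorem qtd (hQT1 : Qt1Stmt) (hLCJ : LcjStmt) (hQT2 : Qt2Stmt) : QtdStmt := by
  intro ℓ _ M _ hM G _ _ e V γ hL Q hQ A _ _ p hp hker f hf hff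
  have hF : GoodF ℓ (FF M) := H50.fld ℓ Fact.out M hM
  obtain ⟨k, hk, hT⟩ := hQT1 ℓ M hM G e V γ hL Q hQ A p hp hker f hf hff
  obtain ⟨hL', hix⟩ := hLCJ ℓ (FF M) hF G e V γ hL k
  obtain ⟨γ', hγ', hix'⟩ := hQT2 ℓ M hM G e (conjS k V) (cj k γ) hL' Q hk A p hp hker f hf hff hT
  refine ⟨_, γ', hγ', ?_, hix'.trans hix.le⟩
  -- the order
  have hcard : Nat.card (conjS k V) = Nat.card V :=
    (Nat.card_congr (V.equivMapOfInjective (MulAut.conj k).toMonoidHom
      (MulAut.conj k).injective).toEquiv).symm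
  have hVN : conjS k V ≤ Subgroup.normalizer (Q : Set G) := by
    intro v hv
    rw [Subgroup.mem_normalizer_iff]
    intro h
    have hab := hL'.ab
    constructor
    · intro hh
      rw [hab v hv h (hk hh), mul_inv_cancel_right]
      exact hh
    · intro hh
      have h1 := hab v hv _ (hk hh)
      have h2 : v * h = v * (v * h * v⁻¹) := by
        rw [h1]
        group
      rw [mul_left_cancel h2]
      exact hh
  obtain ⟨W, hW⟩ : ∃ W : Subgroup (Subgroup.normalizer (Q : Set G)),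
      W = (conjS k V).subgroupOf (Subgroup.normalizer (Q : Set G)) := ⟨_, rfl⟩
  have hWc : Nat.card W = Nat.card (conjS k V) := by
    rw [hW]
    exact Nat.card_congr (Subgroup.subgroupOfEquivOfLe hVN).toEquiv
  have hkW : p.ker ≤ W := by
    rw [hker, hW]
    exact Subgroup.comap_mono hk
  have hQc : Nat.card p.ker = Nat.card Q := by
    rw [hker]
    exact Nat.card_congr (Subgroup.subgroupOfEquivOfLe Subgroup.le_normalizer).toEquiv
  rw [← hW, ← hcard, ← hWc, ← hQc, mul_comm]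
  have h1 : Nat.card (p.ker.subgroupOf W) * (p.ker.subgroupOf W).index = Nat.card W :=
    Subgroup.card_mul_index _
  have h2 : Nat.card (p.ker.subgroupOf W) = Nat.card p.ker :=
    Nat.card_congr (Subgroup.subgroupOfEquivOfLe hkW).toEquiv
  have h3 : (p.ker.subgroupOf W).index = Nat.card (W.map p) := by
    have h4 : (p.comp W.subtype).ker = p.ker.subgroupOf W := rfl
    rw [← h4, Subgroup.index_ker]
    congr 1
    rw [MonoidHom.range_comp, Subgroup.range_subtype]
  rw [← h3, ← h2]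
  exact h1

end Pool.Agent.PP.T3.H41
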