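import Pool.Agent.AT3.Stmts3
import Pool.Agent.Helper3_K9.Lbd
import Pool.Agent.Helper75_PP.Fin0
import Pool.Agent.Helper50_PP.Bid
import Pool.Agent.Helper50_PP.Ldp
import Pool.Agent.Helper50_PP.Dic
import Pool.Agent.Helper50_PP.Ffa
import Pool.Agent.Helper20_PP.Nls
import Pool.Agent.Helper20_PP.Ibr
import Pool.Agent.Helper63_PP.Smt
import Pool.Agent.Helper94_PP.Nch
import Pool.Agent.Helper9_PP.Add
import Pool.Agent.Helper96_PP.Trn
import Pool.Agent.Helper79_WRA.Tower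

/-!
# Squad AT3, row T3A: the main theorem for block idempotents
-/

open scoped BigOperators

noncomputable section

namespace Pool.Agent.PP.T3.H41

open Pool.Agent.Helper51_AWC Pool.Agent.Helper79_WRA Pool.Agent.PP Pool.Agent.PP.KF
open Pool.Agent.PP.K9 Pool.Agent.PP.K9.H97 Pool.Agent.PP.H75

attribute [local instance] Ideal.Quotient.field

theorem t3a (hQTD : QtdStmt) (hCHA : ChaStmt) (hLBE : LbeStmt) (hDVS : DvsStmt) (hPOS : PosStmt)
    (hNVT : NvtStmt) : T3aStmt := by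
  intro ℓ hℓ M _ hM
  have hF : GoodF ℓ (FF M) := H50.fld ℓ Fact.out M hM
  suffices hmain : ∀ n : ℕ, ∀ (G : Type) [Group G] [Finite G], Nat.card G = n →
      ∀ (e : G → FF M) (V : Subgroup G) (γ : G → FF M), Ld ℓ e V γ → V ≠ ⊥ → 5 ≤ ℓ →
      3 * ix V γ ≤ ℓ → YY ℓ ⊤ e = 0 by
    intro G _ _ e V γ h1 h2 h3 h4
    exact hmain _ G rfl e V γ h1 h2 h3 h4
  intro n
  induction n using Nat.strong_induction_on with
  | _ n ih =>
  intro G _ _ hn e V γ hL hV h5 hix
  by_cases hO : opCore ℓ G = ⊥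
  swap
  · exact H96.yzr ℓ (FF M) hℓ.out G ⊤ inferInstance (opCore_top_ne rfl hO) e
  have hY : ∀ Q : Subgroup G, IsPGroup ℓ Q → Q ≠ ⊥ → Gd e Q → Nat.card Q < Nat.card V →
      YQ ℓ e Q = 0 := by
    intro Q hQ hQb hQg hQc
    have hfid : IsIdem (fun t : Subgroup.normalizer (Q : Set G) => br Q e t) :=
      (H20.brm ℓ (FF M) hF G Q (Subgroup.normalizer (Q : Set G)) hQ
        (Subgroup.centralizer_le_normalizer _) le_rfl).2.2 e hL.blk.1
    have hk : (QuotientGroup.mk' (Q.subgroupOf (Subgroup.normalizer (Q : Set G)))).ker =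
      Q.subgroupOf (Subgroup.normalizer (Q : Set G)) := QuotientGroup.ker_mk' _
    have hs := QuotientGroup.mk'_surjective (Q.subgroupOf (Subgroup.normalizer (Q : Set G)))
    unfold YQ
    refine H9.addStmt ℓ (FF M) hF _ ⊤ inferInstance _ (push_isIdem hs hfid) ?_
    intro f hf hff
    obtain ⟨V', γ', hL', hc, hi⟩ := hQTD ℓ M hM G e V γ hL Q hQ _ _ hs hk f hf hff
    have hQ1 : 1 < Nat.card Q := by
      rw [Subgroup.one_lt_card_iff_ne_bot]
      exact hQb
    refine ih _ ?_ _ rfl f V' γ' hL' ?_ h5 ((Nat.mul_le_mul_left 3 hi).trans hix)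
    · have h1 := (Q.subgroupOf (Subgroup.normalizer (Q : Set G))).card_eq_card_quotient_mul_card_subgroup
      have h2 : Nat.card (Q.subgroupOf (Subgroup.normalizer (Q : Set G))) = Nat.card Q :=
        Nat.card_congr (Subgroup.subgroupOfEquivOfLe Subgroup.le_normalizer).toEquiv
      have h3 : Nat.card (Subgroup.normalizer (Q : Set G)) ≤ n := by
        rw [← hn]
        exact Subgroup.card_le_card_group _
      have h4 : 0 < Nat.card (Subgroup.normalizer (Q : Set G) ⧸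
          Q.subgroupOf (Subgroup.normalizer (Q : Set G))) := Nat.card_pos
      rw [h2] at h1
      nlinarith
    · intro hb
      rw [hb, Subgroup.card_bot, one_mul] at hc
      omega
  have h1 := hCHA ℓ M hM G e hL.blk V hL.tp hV hY
  obtain ⟨n1, n2⟩ := hNVT ℓ M hM G e V γ hL
  have h2 := hLBE ℓ M hM G e V γ hL hV h5 hix
  have hVN : V.subgroupOf (Subgroup.normalizer (V : Set G)) ≠ ⊥ := by
    intro h
    have h3 : Nat.card (V.subgroupOf (Subgroup.normalizer (V : Set G))) = Nat.card V :=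
      Nat.card_congr (Subgroup.subgroupOfEquivOfLe Subgroup.le_normalizer).toEquiv
    rw [h, Subgroup.card_bot] at h3
    exact hV (Subgroup.card_eq_one.1 h3.symm)
  have h3 := hLBE ℓ M hM _ _ _ _ n1 hVN h5 (by rw [n2]; exact hix)
  obtain ⟨a1, -⟩ := H3.lbd ℓ M hM G e hL.blk.1 hL.blk.2.1
  obtain ⟨b1, -⟩ := H3.lbd ℓ M hM _ _ n1.blk.1 n1.blk.2.1
  have a2 : 1 ≤ ln e := a1
  have b2 : 1 ≤ ln (fun t : Subgroup.normalizer (V : Set G) => br V e t) := b1
  obtain ⟨χ, hχ, r1, -, r3⟩ := H75.block_case H20.nls H20.brm H63.smt H94.nch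
    (H50.dic H20.ibn H20.nls H20.brm) H50.bid H50.chp H50.ldp H50.fld hℓ.out hM hO hL.blk
    (hPOS ℓ (FF M) hF G e hL.blk V hL.tp.pg hV hL.tp.gd)
  have h4 := (hDVS ℓ M hM G hO e V γ hL hV χ hχ r1).2
  rw [h1] at r3
  have h7 : (Nat.card G : ℤ) ≠ 0 := by exact_mod_cast Nat.card_pos.ne'
  have h8 := mul_left_cancel₀ h7 r3
  have h9 : (ln e : ℤ) - ln (fun t : Subgroup.normalizer (V : Set G) => br V e t) = 0 := by
    rw [h8] at h4
    refine Int.eq_zero_of_abs_lt_dvd h4 ?_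
    rw [abs_lt]
    omega
  rw [h1, h9, mul_zero]

end Pool.Agent.PP.T3.H41
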